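import Pool.Agent.Aks1.Rare

set_option autoImplicit false

/-!
# MP_4003b2_nt: the failures of the AKS congruence with the single base `x - 1` are rare

(1) Spacing: two solutions modulo `p` of the congruence in one residue class modulo `r` are far apart.
(2) For every prime `r` the number of `n ≤ x` in the range of Agrawal, Kayal and Saxena,
`ord_r(n) ≥ (3/2) (log n)^2`, which are not prime powers and satisfy the congruence is at most
`12 r x^(1/6) + C`. (3) The same for all primes `r ≤ R` together.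

Proof of (1): `ζ` a primitive `r`-th root of unity in the algebraic closure of the field with `p` elements. The
products of different `ζ^a - 1` (`a` prime to `p`, sum of the `a` below `ord_r(n)`) are different (conjugates,
degrees) and are `(n' - n)`-th roots of unity. (2): by `SingleBase` a large failure has at least six prime
factors, so a prime factor `p ≤ n^(1/6)`; by (1) in a dyadic block `n` is determined by `p` and `n mod r`.
-/

namespace Pool.Agent.Results.MP_4003b2_nt.RareFailures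

open Polynomial

theorem result :
    (∀ p r n n' t : ℕ, p.Prime → r.Prime → p ≠ r → n < n' → n ≡ n' [MOD r] → n.Coprime r →
      (X ^ r - 1 : (ZMod p)[X]) ∣ (X - 1) ^ n - (X ^ n - 1) →
      (X ^ r - 1 : (ZMod p)[X]) ∣ (X - 1) ^ n' - (X ^ n' - 1) →
      t ^ 2 < 2 * orderOf (n : ZMod r) → 2 ^ t ≤ 2 * (n' - n)) ∧
    ∃ C : ℕ,
      (∀ r x : ℕ, r.Prime →
        ({n : ℕ | 2 ≤ n ∧ n ≤ x ∧ ¬ IsPrimePow n ∧ n.Coprime r ∧
            3 / 2 * Real.log n ^ 2 ≤ (orderOf (n : ZMod r) : ℝ) ∧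
            (X ^ r - 1 : (ZMod n)[X]) ∣ (X - 1) ^ n - (X ^ n - 1)}.ncard : ℝ) ≤
          12 * r * (x : ℝ) ^ (1 / 6 : ℝ) + C) ∧
      ∀ R x : ℕ,
        ({n : ℕ | 2 ≤ n ∧ n ≤ x ∧ ¬ IsPrimePow n ∧ ∃ r : ℕ, r.Prime ∧ r ≤ R ∧ n.Coprime r ∧
            3 / 2 * Real.log n ^ 2 ≤ (orderOf (n : ZMod r) : ℝ) ∧
            (X ^ r - 1 : (ZMod n)[X]) ∣ (X - 1) ^ n - (X ^ n - 1)}.ncard : ℝ) ≤
          12 * R ^ 2 * (x : ℝ) ^ (1 / 6 : ℝ) + C * R :=
  Aks1.rareAll

end Pool.Agent.Results.MP_4003b2_nt.RareFailures
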