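import Pool.Agent.Aks1.Gap2

set_option autoImplicit false

/-!
# MP_4003b2_nt: gaps between multiplicatively related exponents

Suppose that `(x - 1)^n ≡ x^n - 1` modulo `x^r - 1` and modulo a multiple `k` of a prime `p`, `n = m p^e` (for
instance `p` a prime factor of `n` and `k = n`). Let `h` be the order of the group generated by `m` and `p` modulo `r`.
If `A > A' ≥ 1` are two numbers of the form `m^i p^j` with `A ≡ ± A'` modulo `r`, then
`log A ≥ 10⁻⁷ min(h, (log p)²) log (2 + (log p)²/h + h/(log p)²)`.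
-/

namespace Pool.Agent.Results.MP_4003b2_nt.RelationGap

open Polynomial

theorem result (p m e r k : ℕ) (_ : p.Prime) (_ : r.Prime) (_ : 1 ≤ m) (_ : p ∣ k)
    (hm : m.Coprime r) (hp : p.Coprime r)
    (_ : (X ^ r - 1 : (ZMod k)[X]) ∣ (X - 1) ^ (m * p ^ e) - (X ^ (m * p ^ e) - 1))
    (h : ℝ) (_ : h = (Nat.card (Subgroup.closure
      ({ZMod.unitOfCoprime m hm, ZMod.unitOfCoprime p hp} : Set (ZMod r)ˣ)) : ℝ))
    (i j i' j' : ℕ) (_ : m ^ i' * p ^ j' < m ^ i * p ^ j)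
    (_ : ((m ^ i * p ^ j : ℕ) : ZMod r) = ((m ^ i' * p ^ j' : ℕ) : ZMod r) ∨
      ((m ^ i * p ^ j : ℕ) : ZMod r) = -((m ^ i' * p ^ j' : ℕ) : ZMod r)) :
    1 / 10000000 * (min h (Real.log p ^ 2) *
      Real.log (2 + Real.log p ^ 2 / h + h / Real.log p ^ 2)) ≤
      Real.log ((m ^ i * p ^ j : ℕ) : ℝ) := by
  subst h
  exact Aks1.gapK2 p m e r k ‹_› ‹_› ‹_› ‹_› hm hp ‹_› i j i' j' ‹_› ‹_›

end Pool.Agent.Results.MP_4003b2_nt.RelationGap
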