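import Pool.Agent.Aks1.FinB

set_option autoImplicit false

/-!
# MP_4003b2_nt: the AKS congruence with the single base `x - 1`

For `n = m p^e`, `p` prime, `2 ≤ m ≤ p^4`, `m` not a power of `p`, and a prime `r` such that `m` and `p` generate at
least `6 log p log m` residues modulo `r`, the congruence `(x - 1)^n ≡ x^n - 1` fails modulo `x^r - 1` and every
multiple of `p` (for instance `n`), up to finitely many pairs `(p, r)`. With `e = 1` these are all `n` that are
not prime powers and have a prime factor `p ≥ n^(1/5)`; `6 log p log m ≤ (3/2) (log n)^2` (`Aks1.mainN`, `Aks1.mainQ`).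

Proof: the numbers `1 - ζ^h`, `h` in the group generated by `m` and `p`, are modulo `p` powers of `1 - ζ` with small
exponents; products of many of them with small height are counted against the exponents (pigeonhole, Gini's mean
difference), two congruent ones differ by a multiple of `p` of norm at least `p^(r-1)`.
-/

namespace Pool.Agent.Results.MP_4003b2_nt.SingleBase

open Polynomial

theorem result : ∃ N₀ : ℕ, ∀ p m e r : ℕ, p.Prime → r.Prime → N₀ ≤ max p r → 2 ≤ m → m ≤ p ^ 4 →
    (∀ j : ℕ, m ≠ p ^ j) → ∀ (hm : m.Coprime r) (hp : p.Coprime r),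
    6 * Real.log p * Real.log m ≤ (Nat.card (Subgroup.closure
      ({ZMod.unitOfCoprime m hm, ZMod.unitOfCoprime p hp} : Set (ZMod r)ˣ)) : ℝ) →
    ∀ k : ℕ, p ∣ k →
      ¬ (X ^ r - 1 : (ZMod k)[X]) ∣ (X - 1) ^ (m * p ^ e) - (X ^ (m * p ^ e) - 1) :=
  Aks1.mainK

end Pool.Agent.Results.MP_4003b2_nt.SingleBase
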