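import Pool.Agent.Aks1.Sq

set_option autoImplicit false

/-!
# MP_4003b2_nt: square factors

If `p ^ 2` divides `n` and the congruence of Q1 holds for `n` and `r`, then it holds for `p` modulo `p ^ 2`, the
sums of the `1 / k` (`0 < k < p`) over the residue classes modulo `r` vanish modulo `p`, and `r (r + 1) ≤ 2 (p - 1)`.

Proof: `x - 1 = (x^a - 1)^n` for `a n = 1` modulo `r`, and `(x^a - 1)^p = x^(a p) - 1 + p c`, so
`(x - 1)^p = (x^(a p) - 1 + p c)^n = (x^(a p) - 1)^n = x^p - 1` modulo `p ^ 2`. Dividing by `p`: the sum of the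
`x^k / k` is `0` modulo `(p, x^r - 1)`. The class of `j` is `j, j + r, ..., j + (m - 1) r`, so `t = j / r` is a zero
modulo `p` of the derivative of `T (T + 1) ... (T + m - 1)`: at most `m - 1` classes have `m` elements.
-/

namespace Pool.Agent.Results.MP_4003b2_nt.SquareFactors

open Polynomial

theorem result : ∀ p r n : ℕ, p.Prime → r.Prime → n.Coprime r → p ^ 2 ∣ n →
    (X ^ r - 1 : (ZMod n)[X]) ∣ (X - 1) ^ n - (X ^ n - 1) →
    (X ^ r - 1 : (ZMod (p ^ 2))[X]) ∣ (X - 1) ^ p - (X ^ p - 1) ∧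
      (∀ j : ℕ, ∑ k ∈ (Finset.Ico 1 p).filter (fun k => k % r = j), (k : ZMod p)⁻¹ = 0) ∧
      r * (r + 1) ≤ 2 * (p - 1) := by
  intro p r n hp hr hco hsq h
  refine Aks1.square hp hr ?_ hco hsq h
  rintro rfl
  have h1 : p ∣ Nat.gcd n p := Nat.dvd_gcd ((dvd_pow_self p two_ne_zero).trans hsq) dvd_rfl
  rw [hco] at h1
  exact hp.one_lt.ne' (Nat.dvd_one.1 h1)

end Pool.Agent.Results.MP_4003b2_nt.SquareFactors
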